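import Pool.Agent.Lib.helper5.Vnum

open MvPolynomial

namespace Pool.Agent.Results.MP_0bcfe8_al.Drop

/-- Degrees of homogeneous `f` such that `(J : f)` is a prime ideal. -/
def degs {K : Type} [Field K] {n : ℕ} (J : Ideal (MvPolynomial (Fin n) K)) : Set ℕ :=
  {d | ∃ f : MvPolynomial (Fin n) K, f.IsHomogeneous d ∧
    ∃ p : Ideal (MvPolynomial (Fin n) K), p.IsPrime ∧ ∀ g, g ∈ p ↔ g * f ∈ J}

/-- The v-number. -/
noncomputable def vnum {K : Type} [Field K] {n : ℕ} (J : Ideal (MvPolynomial (Fin n) K)) : ℕ :=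
  sInf (degs J)

theorem result (K : Type) [Field K] : ∃ I : Ideal (MvPolynomial (Fin 3) K),
    (∃ s : Set (MvPolynomial (Fin 3) K), (∀ g ∈ s, ∃ d, g.IsHomogeneous d) ∧ I = Ideal.span s) ∧
    I ≠ ⊥ ∧ I ≠ ⊤ ∧ (degs (I ^ 2)).Nonempty ∧ vnum (I ^ 2) < vnum (I ^ 1) := by
  have h1 := H5V.colon_vars K (H5V.one K).1 (H5V.one K).2
  have h2 := H5V.colon_vars K (H5V.two K 0).1 (H5V.two K 0).2
  have h3 : 3 ∈ degs (H5V.I0 K ^ 2) := ⟨_, H5V.hom3 K, _, H5V.prime_vars K, h2⟩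
  refine ⟨H5V.I0 K, H5V.homog K, fun h => ?_, fun h => (H5V.one K).1 (by rw [h]; trivial), ⟨3, h3⟩, ?_⟩
  · have := (H5V.one K).2 0
    rw [h, Ideal.mem_bot] at this
    simp at this
  · refine lt_of_le_of_lt (Nat.sInf_le h3) ?_
    rw [pow_one]
    rw [Nat.lt_iff_add_one_le, vnum]
    refine le_csInf ⟨4, _, (isHomogeneous_X K 0).pow 4, _, H5V.prime_vars K, h1⟩ ?_
    rintro d ⟨f, hf, p, hp, h⟩
    refine H5V.low K hf (fun hI => hp.ne_top ((Ideal.eq_top_iff_one _).2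
      ((h 1).2 (by rwa [one_mul])))) fun i => (h _).1 (hp.mem_of_pow_mem 5 ((h _).2
        (Ideal.mul_mem_right _ _ (Ideal.subset_span ?_))))
    fin_cases i <;> simp

end Pool.Agent.Results.MP_0bcfe8_al.Drop
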